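import Pool.Agent.H.MP_dec24c_co.B

set_option autoImplicit false

namespace Pool.Agent.Results.MP_dec24c_co.Full

open Pool.Agent.H.MP_dec24c_co Finset Relation

universe u

theorem main {V : Type u} {G : SimpleGraph V} {ι : Type u} [Fintype ι] [Nonempty ι]
    (hG : G.Connected) {c : ι → V} (hr : Res G c) (o : ι) :
    ∃ W : Set V, W.Finite ∧ W.Nonempty ∧
      ∀ u v s, ph G c v s = ph G c u s + G.dist u v → ReflTransGen (Step G W) u v := by
  classical
  obtain ⟨ρ, hρ⟩ := exists_rho hG c o
  obtain ⟨D, hD⟩ := exists_D hG c o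
  have hs : ∀ v, ρ < ph G c v o → ∃ x', G.Adj v x' ∧ ∀ s, ph G c x' s = ph G c v s + 1 :=
    fun v hv => by
      obtain ⟨y, h1, h2⟩ := (hρ v hv).2 (ph G c v o)
      exact succ_ex hG hr o h1 h2
  have hp : ∀ v, ρ < ph G c v o → ∃ x', G.Adj v x' ∧ ∀ s, ph G c x' s = ph G c v s - 1 :=
    fun v hv => by
      obtain ⟨y, h1, h2⟩ := (hρ v hv).1
      exact pred_ex hG hr o h1 h2
  by_cases hfar : ∃ v, ρ < ph G c v o
  swap
  · push Not at hfar
    refine ⟨{c o}, Set.finite_singleton _, Set.singleton_nonempty _, fun u v _ _ => ?_⟩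
    suffices hh : ∀ x y, G.Adj x y → Step G {c o} x y by
      have h0 := (SimpleGraph.reachable_iff_reflTransGen u v).1 (hG.preconnected u v)
      clear * - h0 hh
      induction h0 with
      | refl => exact ReflTransGen.refl
      | tail _ hbc ih => exact ih.tail (hh _ _ hbc)
    refine fun x y h => ⟨h, ?_⟩
    rintro ⟨-, ⟨R, ⟨hR, -⟩, -⟩, -⟩
    have h1 := hR.2.2 0 (2 * ρ.toNat + 1) (by omega)
    have h2 := hG.dist_triangle (u := R 0) (v := c o) (w := R (2 * ρ.toNat + 1))
    rw [SimpleGraph.dist_comm (u := R 0) (v := c o)] at h2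
    have h3 := hfar (R 0)
    have h4 := hfar (R (2 * ρ.toNat + 1))
    unfold ph at h3 h4
    omega
  obtain ⟨I, hI⟩ : ∃ I : Finset (ι → ℤ), ∀ p, p ∈ I ↔
      ∀ N, ∃ y, pr G c o y = p ∧ N < ph G c y o := by
    refine ⟨(fin_pr hG c o).toFinset.filter
      fun p => ∀ N, ∃ y, pr G c o y = p ∧ N < ph G c y o, fun p => ?_⟩
    rw [mem_filter, Set.Finite.mem_toFinset]
    refine ⟨fun h => h.2, fun h => ⟨?_, h⟩⟩
    obtain ⟨y, hy, -⟩ := h 0
    exact ⟨y, hy⟩
  obtain ⟨n, hT, hn⟩ := potential I (fun p q => mx p q - mx q p) (fun p q => by ring)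
    (ρ + 2 * D + 1)
  have hD0 : 0 ≤ D := by
    have := hD (c o) o
    omega
  have prs : ∀ (x y : V) (e : ℤ), (∀ s, ph G c y s = ph G c x s + e) →
      pr G c o y = pr G c o x := fun x y e h => by
    funext s
    unfold pr
    rw [h s, h o]
    ring
  have lev : ∀ p ∈ I, ∃ w, pr G c o w = p ∧ ph G c w o = n p := fun p hpI => by
    have dn : ∀ (k : ℕ) (y : V), pr G c o y = p → ph G c y o = n p + k →
        ∃ w, pr G c o w = p ∧ ph G c w o = n p := by
      intro k
      induction k with
      | zero => exact fun y h1 h2 => ⟨y, h1, by simpa using h2⟩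
      | succ k ih =>
        intro y h1 h2
        have := hT p hpI
        obtain ⟨y', -, h3⟩ := hp y (by omega)
        have h4 := h3 o
        exact ih y' ((prs y y' (-1) fun s => by rw [h3 s]; ring).trans h1) (by omega)
    obtain ⟨y, h1, h2⟩ := (hI p).1 hpI (n p)
    exact dn (ph G c y o - n p).toNat y h1 (by omega)
  have : Nonempty V := ⟨c o⟩
  choose! w hw1 hw2 using lev
  obtain ⟨Live, hL⟩ : ∃ Live : V → Prop, ∀ x, Live x ↔
      ∃ p ∈ I, ∃ s, ph G c x s = ph G c (w p) s + G.dist (w p) x := ⟨_, fun _ => Iff.rfl⟩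
  set W : Set V := w '' ↑I with hW
  have lf : ∀ x, Live x → ρ < ph G c x o := fun x hx => by
    obtain ⟨p, hpI, s, h⟩ := (hL x).1 hx
    have h1 := hD x s
    have h2 := hD (w p) s
    have h3 := hT p hpI
    have h4 := hw2 p hpI
    unfold pr at h1 h2
    omega
  have nl : ∀ x y, G.Adj x y → (¬ Live x ∨ ¬ Live y) → Step G W x y := fun x y ha h => by
    refine ⟨ha, ?_⟩
    rintro ⟨-, ⟨R, ⟨hR, p, hpI, h0⟩, ⟨i, rfl⟩, ⟨j, rfl⟩⟩, -⟩
    have l : ∀ i, Live (R i) := fun i => (hL _).2 ⟨p, hpI, h0 ▸ on_ray hG hr hR i⟩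
    exact h.elim (fun h => h (l _)) (fun h => h (l _))
  have one : ∀ p ∈ I, ∀ s x y, ph G c x s = ph G c (w p) s + G.dist (w p) x → G.Adj x y →
      ph G c y s = ph G c x s + 1 →
      ph G c y s = ph G c (w p) s + G.dist (w p) y ∧ Step G W x y := by
    intro p hpI s x y h1 ha h2
    have h3 := hG.dist_triangle (u := w p) (v := x) (w := y)
    have h4 : G.dist x y = 1 := SimpleGraph.dist_eq_one_iff_adj.2 ha
    have h5 := lip hG c (w p) y s
    have h6 : ph G c y s = ph G c (w p) s + G.dist (w p) y := by omega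
    exact ⟨h6, traverse hG o ρ hs ⟨p, hpI, rfl⟩ s h1 ha h2 (lf y ((hL y).2 ⟨p, hpI, s, h6⟩))⟩
  have fwd : ∀ p ∈ I, ∀ s v (k : ℕ) x, ph G c x s = ph G c (w p) s + G.dist (w p) x →
      ph G c v s = ph G c x s + k → G.dist x v = k → ReflTransGen (Step G W) x v := by
    intro p hpI s v k
    induction k with
    | zero =>
      intro x _ _ h
      rw [(hG.dist_eq_zero_iff).1 h]
    | succ k ih =>
      intro x h1 h2 h3
      obtain ⟨x', ha, hd⟩ := geo_step hG h3
      have a1 := lip hG c x' v s
      have a2 := lip1 hG c ha s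
      obtain ⟨b1, b2⟩ := one p hpI s x x' h1 ha (by omega)
      exact ReflTransGen.head b2 (ih x' b1 (by omega) hd)
  have ls : ∀ x y, Live x → G.Adj x y → (∀ s, ph G c y s = ph G c x s + 1) →
      Live y ∧ Step G W x y := fun x y hx ha h => by
    obtain ⟨p, hpI, s, h1⟩ := (hL x).1 hx
    obtain ⟨b1, b2⟩ := one p hpI s x y h1 ha (h s)
    exact ⟨(hL y).2 ⟨p, hpI, s, b1⟩, b2⟩
  have back : ∀ (k : ℕ) x, ph G c x o = k →
      (¬ Live x → ReflTransGen (Step G W) x (c o)) ∧ ReflTransGen (Step G W) (c o) x := by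
    intro k
    induction k with
    | zero =>
      intro x hx
      have : c o = x := (hG.dist_eq_zero_iff).1 (by unfold ph at hx; omega)
      subst this
      exact ⟨fun _ => ReflTransGen.refl, ReflTransGen.refl⟩
    | succ k ih =>
      intro x hx
      by_cases hf : ρ < ph G c x o
      · obtain ⟨y, ha, h⟩ := hp x hf
        have h0 := h o
        obtain ⟨i1, i2⟩ := ih y (by omega)
        by_cases hy : Live y
        · obtain ⟨b1, b2⟩ := ls y x hy ha.symm fun s => by rw [h s]; ring
          exact ⟨fun h' => absurd b1 h', i2.tail b2⟩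
        · exact ⟨fun _ => ReflTransGen.head (nl x y ha (Or.inr hy)) (i1 hy),
            i2.tail (nl y x ha.symm (Or.inl hy))⟩
      · obtain ⟨y, ha, h⟩ := geo_step hG (x := x) (y := c o) (k := k) (by
          rw [SimpleGraph.dist_comm]; unfold ph at hx; omega)
        have h0 : ph G c y o = k := by
          unfold ph
          rw [SimpleGraph.dist_comm, h]
        obtain ⟨i1, i2⟩ := ih y h0
        have hy : ¬ Live y := fun h' => by
          have := lf y h'
          omega
        exact ⟨fun _ => ReflTransGen.head (nl x y ha (Or.inr hy)) (i1 hy),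
          i2.tail (nl y x ha.symm (Or.inl hy))⟩
  have back1 : ∀ x, ¬ Live x → ReflTransGen (Step G W) x (c o) := fun x =>
    (back (G.dist (c o) x) x rfl).1
  have back2 : ∀ x, ReflTransGen (Step G W) (c o) x := fun x => (back (G.dist (c o) x) x rfl).2
  have fw0 : ∀ p ∈ I, ∀ s v, ph G c v s = ph G c (w p) s + G.dist (w p) v →
      ReflTransGen (Step G W) (w p) v := fun p hpI s v h =>
    fwd p hpI s v _ (w p) (by simp) h rfl
  have wb : ∀ i ∈ I, ReflTransGen (Step G W) (w i) (c o) := by
    intro i hi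
    have key := hn {p | ReflTransGen (Step G W) (w i) (w p)} (by
      intro l hl j hj h1 h2
      by_contra! hc
      obtain ⟨s, h⟩ := (ahead_iff hG hr o (w l) (w j)).2 (by
        rw [hw1 l hl, hw1 j hj, hw2 l hl, hw2 j hj]
        omega)
      exact h2 (ReflTransGen.trans h1 (fw0 l hl s _ h))) i hi
    have ind : ∀ (k : ℕ) x, ph G c x o = k → pr G c o x = i → ph G c x o ≤ n i →
        ReflTransGen (Step G W) (w i) x → ReflTransGen (Step G W) (w i) (c o) := by
      intro k
      induction k with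
      | zero =>
        intro x hx _ _ h
        have : c o = x := (hG.dist_eq_zero_iff).1 (by unfold ph at hx; omega)
        rwa [this]
      | succ k ih =>
        intro x hx h1 h2 h3
        by_cases hl : Live x
        swap
        · exact h3.trans (back1 x hl)
        obtain ⟨y, ha, h⟩ := hp x (lf x hl)
        have h0 := h o
        have hy1 : pr G c o y = i := (prs x y (-1) fun s => by rw [h s]; ring).trans h1
        by_cases hy : Live y
        swap
        · exact (h3.tail (nl x y ha (Or.inr hy))).trans (back1 y hy)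
        obtain ⟨j, hj, s, h4⟩ := (hL y).1 hy
        refine ih y (by omega) hy1 (by omega) ?_
        by_cases hC : ReflTransGen (Step G W) (w i) (w j)
        · exact hC.trans (fw0 j hj s y h4)
        · have h5 := key j hj ReflTransGen.refl hC
          have h6 := (ahead_iff hG hr o (w j) y).1 ⟨s, h4⟩
          rw [hw1 j hj, hw2 j hj, hy1] at h6
          omega
    exact ind (G.dist (c o) (w i)) (w i) rfl (hw1 i hi) (hw2 i hi).le ReflTransGen.refl
  have up : ∀ p ∈ I, ∀ (k : ℕ) x, Live x → pr G c o x = p → ph G c x o + k = n p →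
      ReflTransGen (Step G W) x (w p) := by
    intro p hpI k
    induction k with
    | zero =>
      intro x _ h1 h2
      have h3 := hw2 p hpI
      have h4 := same_dist hr o (h1.trans (hw1 p hpI).symm) (by omega)
      rw [(hG.dist_eq_zero_iff (u := x) (v := w p)).1 (by omega)]
    | succ k ih =>
      intro x hx h1 h2
      obtain ⟨y, ha, h⟩ := hs x (lf x hx)
      obtain ⟨b1, b2⟩ := ls x y hx ha h
      have h0 := h o
      exact ReflTransGen.head b2 (ih y b1 ((prs x y 1 h).trans h1) (by omega))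
  refine ⟨W, I.finite_toSet.image w, ?_, fun u v s h => ?_⟩
  · obtain ⟨v, hv⟩ := hfar
    exact ⟨_, pr G c o v, (hI _).2 (hρ v hv).2, rfl⟩
  by_cases hu : Live u
  swap
  · exact (back1 u hu).trans (back2 v)
  have hpI : pr G c o u ∈ I := (hI _).2 (hρ u (lf u hu)).2
  rcases le_total (n (pr G c o u)) (ph G c u o) with h1 | h1
  · have h2 := hw2 _ hpI
    have h3 := same_dist hr o (hw1 _ hpI) (by omega)
    have h4 := same c o (hw1 _ hpI) s
    exact fwd _ hpI s v _ u (by omega) h rfl
  · exact ((up _ hpI (n (pr G c o u) - ph G c u o).toNat u hu rfl (by omega)).trans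
      (wb _ hpI)).trans (back2 v)

/-- If `G_W` has a bad pair for every nonempty finite `W`, then the connected graph `G` has no
finite strong resolving set. -/
theorem result {V : Type u} (G : SimpleGraph V) (hG : G.Connected)
    (h : ∀ W : Set V, W.Finite → W.Nonempty → ∃ u v, BadPair G W u v) :
    ¬ ∃ S : Set V, S.Finite ∧ StrongResolving G S := by
  classical
  rintro ⟨S, hS, hres⟩
  obtain ⟨o⟩ := hG.nonempty
  have hfin : (insert o S).Finite := hS.insert o
  have : Fintype ↥(insert o S) := hfin.fintype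
  have : Nonempty ↥(insert o S) := ⟨⟨o, Set.mem_insert _ _⟩⟩
  have hr : Res G (fun s : ↥(insert o S) => (s : V)) := by
    intro x y
    by_cases e : x = y
    · subst e
      exact ⟨⟨o, Set.mem_insert _ _⟩, Or.inl (by simp)⟩
    · obtain ⟨w, hw, h1⟩ := hres x y e
      refine ⟨⟨w, Set.mem_insert_of_mem _ hw⟩, ?_⟩
      rw [SimpleGraph.dist_comm (u := y) (v := x)] at h1
      unfold ph
      simp only
      omega
  obtain ⟨W, h1, h2, h3⟩ := main hG hr ⟨o, Set.mem_insert _ _⟩
  obtain ⟨u, v, -, b1, b2⟩ := h W h1 h2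
  obtain ⟨s, hs | hs⟩ := hr u v
  · exact b1 (hasPath_of (h3 u v s (by omega)))
  · exact b2 (hasPath_of (h3 v u s (by rw [SimpleGraph.dist_comm]; omega)))

end Pool.Agent.Results.MP_dec24c_co.Full
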